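import Pool.Agent.Y28.CrossC

set_option autoImplicit false

namespace Pool.Agent.Results.MP_657f9d_co.AllPointSets

/-- `P` is in general position: no line contains three points of `P`. -/
def GeneralPosition (P : Finset (ℝ × ℝ)) : Prop :=
  ∀ a ∈ P, ∀ b ∈ P, ∀ c ∈ P, a ≠ b → b ≠ c → a ≠ c → ¬ Collinear ℝ ({a, b, c} : Set (ℝ × ℝ))

/-- The closed segments `ab` and `cd` cross: their intersection is a single point, which lies in the
relative interior of both. -/
def Crosses (a b c d : ℝ × ℝ) : Prop :=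
  ∃ x : ℝ × ℝ, segment ℝ a b ∩ segment ℝ c d = {x} ∧ x ∈ openSegment ℝ a b ∧ x ∈ openSegment ℝ c d

/-- `P` has a crossing family of size at least `s`: a set of `k ≥ s` segments, each with both (distinct)
endpoints in `P`, any two of which cross. -/
def HasCrossingFamily (P : Finset (ℝ × ℝ)) (s : ℝ) : Prop :=
  ∃ (k : ℕ) (a b : Fin k → ℝ × ℝ), s ≤ k ∧ (∀ i, a i ∈ P ∧ b i ∈ P ∧ a i ≠ b i) ∧
    ∀ i j, i ≠ j → Crosses (a i) (b i) (a j) (b j)

/-- `P` has a non-crossing family of size at least `m`: four pairwise disjoint nonempty subsets of `P`,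
each with at least `m` points, such that every point of the fourth lies in the interior of every
triangle spanned by one point of each of the first three. -/
def HasNonCrossingFamily (P : Finset (ℝ × ℝ)) (m : ℕ) : Prop :=
  ∃ Q : Fin 4 → Finset (ℝ × ℝ), (∀ i, Q i ⊆ P ∧ (Q i).Nonempty ∧ m ≤ (Q i).card) ∧
    (∀ i j, i ≠ j → Disjoint (Q i) (Q j)) ∧
    ∀ p₁ ∈ Q 0, ∀ p₂ ∈ Q 1, ∀ p₃ ∈ Q 2, ∀ p₄ ∈ Q 3,
      p₄ ∈ interior (convexHull ℝ ({p₁, p₂, p₃} : Set (ℝ × ℝ)))

/-- The set `S` has only one colour. -/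
def Monochromatic {κ : Type} (χ : ℝ × ℝ → κ) (S : Finset (ℝ × ℝ)) : Prop :=
  ∀ x ∈ S, ∀ y ∈ S, χ x = χ y

/-- Every colour is given to at most `m` points of `P`. -/
def ColourAtMost {κ : Type} (P : Finset (ℝ × ℝ)) (χ : ℝ × ℝ → κ) (m : ℕ) : Prop :=
  ∀ S ⊆ P, Monochromatic χ S → S.card ≤ m

/-- Every line contains at most `L` points of `P`. -/
def LineAtMost (P : Finset (ℝ × ℝ)) (L : ℕ) : Prop :=
  ∀ S ⊆ P, Collinear ℝ (S : Set (ℝ × ℝ)) → S.card ≤ L

/-- Some three of the points `p, q, r, s` are collinear. -/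
def ThreeCollinear (p q r s : ℝ × ℝ) : Prop :=
  Collinear ℝ ({p, q, r} : Set (ℝ × ℝ)) ∨ Collinear ℝ ({p, q, s} : Set (ℝ × ℝ)) ∨
    Collinear ℝ ({p, r, s} : Set (ℝ × ℝ)) ∨ Collinear ℝ ({q, r, s} : Set (ℝ × ℝ))

/-- `P` has a crossing family of size at least `s` in which every segment has endpoints of two different
colours. -/
def HasColouredCrossingFamily {κ : Type} (P : Finset (ℝ × ℝ)) (χ : ℝ × ℝ → κ) (s : ℝ) : Prop :=
  ∃ (k : ℕ) (a b : Fin k → ℝ × ℝ), s ≤ k ∧ (∀ i, a i ∈ P ∧ b i ∈ P ∧ χ (a i) ≠ χ (b i)) ∧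
    ∀ i j, i ≠ j → Crosses (a i) (b i) (a j) (b j)

/-- There are `k` segments, each with endpoints in `P` of two different colours, their `2k` endpoints all
different, such that any two of the segments share a point, and any two of them cross unless some three
of their four endpoints are collinear. -/
def HasMeetingFamily {κ : Type} (P : Finset (ℝ × ℝ)) (χ : ℝ × ℝ → κ) (k : ℕ) : Prop :=
  ∃ a b : Fin k → ℝ × ℝ, (∀ i, a i ∈ P ∧ b i ∈ P ∧ χ (a i) ≠ χ (b i)) ∧
    ∀ i j, i ≠ j → (a i ≠ a j ∧ a i ≠ b j ∧ b i ≠ b j) ∧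
      (segment ℝ (a i) (b i) ∩ segment ℝ (a j) (b j)).Nonempty ∧
      (¬ ThreeCollinear (a i) (b i) (a j) (b j) → Crosses (a i) (b i) (a j) (b j))

lemma not_mem_line {p q r : ℝ × ℝ} (h : ¬ Collinear ℝ ({p, q, r} : Set (ℝ × ℝ))) :
    r ∉ line[ℝ, p, q] := by
  intro hr
  apply h
  have h' := (collinear_insert_of_mem_affineSpan_pair hr : Collinear ℝ ({r, p, q} : Set (ℝ × ℝ)))
  have he : ({r, p, q} : Set (ℝ × ℝ)) = {p, q, r} := by
    ext z; simp only [Set.mem_insert_iff, Set.mem_singleton_iff]; tauto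
  rwa [he] at h'

lemma crosses_of {p q r s : ℝ × ℝ} (h : ¬ ThreeCollinear p q r s)
    (hne : (segment ℝ p q ∩ segment ℝ r s).Nonempty) : Crosses p q r s := by
  unfold ThreeCollinear at h
  push Not at h
  obtain ⟨h1, h2, h3, h4⟩ := h
  have e : ∀ x : ℝ × ℝ, ({x, r, s} : Set (ℝ × ℝ)) = {r, s, x} := by
    intro x; ext z; simp only [Set.mem_insert_iff, Set.mem_singleton_iff]; tauto
  rw [e] at h3 h4
  exact Pool.Agent.Y28.CrossC.cross_of (not_mem_line h1) (not_mem_line h2) (not_mem_line h3)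
    (not_mem_line h4) hne

lemma lineAtMost_two {P : Finset (ℝ × ℝ)} (hG : GeneralPosition P) : LineAtMost P 2 := by
  intro S hS hcol
  by_contra hcon
  push Not at hcon
  obtain ⟨x, hx, y, hy, z, hz, hxy, hxz, hyz⟩ := Finset.two_lt_card.1 hcon
  refine hG x (hS hx) y (hS hy) z (hS hz) hxy hyz hxz (hcol.subset ?_)
  intro w hw
  simp only [Set.mem_insert_iff, Set.mem_singleton_iff] at hw
  rcases hw with rfl | rfl | rfl
  · exact hx
  · exact hy
  · exact hz

/-- There is a constant `c > 0` with the following properties.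

Let `P` be ANY finite set of points in the plane (not necessarily in general position), coloured so that
every colour is given to at most `m` points. Then
(1) `P` has at least `c (|P| - m)` segments with `2`-coloured endpoints, all endpoints different, any two of
    which share a point, and any two of which cross unless three of their four endpoints are collinear;
(2) if no line contains more than `L ≥ 2` points of `P`, then `P` has a crossing family of size at least
    `c (|P| - m) / (2 L - 3)` all of whose segments have endpoints of two different colours;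
(3) a family as in (1) never has more than `|P| - |S|` segments, `S` any monochromatic subset of `P`; so (1)
    is sharp up to the constant `c`.

(4) In particular every `n ≥ 2` points in general position have a crossing family of size at least `c n`;
(5) hence Q1 has a positive answer, with every function `f`. -/
theorem result : ∃ c : ℝ, 0 < c ∧
    (∀ (P : Finset (ℝ × ℝ)) (κ : Type) (χ : ℝ × ℝ → κ) (m : ℕ), ColourAtMost P χ m →
      (∃ k : ℕ, c * ((P.card : ℝ) - m) ≤ k ∧ HasMeetingFamily P χ k) ∧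
      (∀ L : ℕ, 2 ≤ L → LineAtMost P L →
        HasColouredCrossingFamily P χ (c * ((P.card : ℝ) - m) / (2 * L - 3))) ∧
      (∀ k : ℕ, HasMeetingFamily P χ k → ∀ S ⊆ P, Monochromatic χ S → k + S.card ≤ P.card)) ∧
    (∀ n : ℕ, 2 ≤ n → ∀ P : Finset (ℝ × ℝ), P.card = n → GeneralPosition P →
      HasCrossingFamily P (c * n)) ∧
    (∀ f : ℕ → ℕ, ∀ n : ℕ, 2 ≤ n → ∀ P : Finset (ℝ × ℝ), P.card = n → GeneralPosition P →
      HasCrossingFamily P (c * n) ∨ HasNonCrossingFamily P (f n)) := by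
  obtain ⟨c, hc, h⟩ := Pool.Agent.Y28.CrossC.weak
  have hhalf : ∀ x y : ℝ, 0 ≤ y → c * x ≤ y → c / 2 * x ≤ y := by
    intro x y hy hxy
    rcases le_total 0 x with hx | hx
    · nlinarith [mul_nonneg hc.le hx]
    · nlinarith [mul_nonneg hc.le (neg_nonneg.2 hx)]
  have key : ∀ (P : Finset (ℝ × ℝ)) (κ : Type) (χ : ℝ × ℝ → κ) (m : ℕ), ColourAtMost P χ m →
      ∀ L : ℕ, 2 ≤ L → LineAtMost P L →
        HasColouredCrossingFamily P χ (c * ((P.card : ℝ) - m) / (2 * L - 3)) := by
    intro P κ χ m hm L hL hline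
    obtain ⟨k, a, b, hk, hP, hab⟩ := h P κ χ m hm
    obtain ⟨k', a', b', hk', hP', hab'⟩ :=
      Pool.Agent.Y28.CrossC.strong_of_weak hP hab hL hline
    refine ⟨k', a', b', ?_, hP', fun i j hij => (hab' i j hij).2.2.2⟩
    have hL3 : (2 : ℝ) ≤ L := by exact_mod_cast hL
    have hpos : (0 : ℝ) < 2 * L - 3 := by linarith
    rw [div_le_iff₀ hpos]
    have h1 : (k : ℝ) ≤ ((2 * L - 3 : ℕ) : ℝ) * k' := by exact_mod_cast hk'
    rw [Nat.cast_sub (by omega)] at h1
    push_cast at h1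
    linarith
  have h4 : ∀ n : ℕ, 2 ≤ n → ∀ P : Finset (ℝ × ℝ), P.card = n → GeneralPosition P →
      HasCrossingFamily P (c / 2 * n) := by
    intro n hn P hP hG
    obtain ⟨k, a, b, hk, hab, hcr⟩ := key P (ℝ × ℝ) id 1 (by
      intro S _ hS
      exact Finset.card_le_one.2 (fun x hx y hy => hS x hx y hy)) 2 le_rfl (lineAtMost_two hG)
    refine ⟨k, a, b, ?_, hab, hcr⟩
    have h2 : (2 : ℝ) ≤ n := by exact_mod_cast hn
    rw [hP] at hk
    norm_num at hk
    nlinarith
  refine ⟨c / 2, by positivity, ?_, h4, fun f n hn P hP hG => Or.inl (h4 n hn P hP hG)⟩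
  intro P κ χ m hm
  refine ⟨?_, ?_, ?_⟩
  · obtain ⟨k, a, b, hk, hP, hab⟩ := h P κ χ m hm
    refine ⟨k, hhalf _ _ (Nat.cast_nonneg _) hk, a, b, hP, ?_⟩
    intro i j hij
    obtain ⟨g1, g2, g3, g4⟩ := hab i j hij
    exact ⟨⟨g1, g2, g3⟩, g4, fun h3 => crosses_of h3 g4⟩
  · intro L hL hline
    obtain ⟨k, a, b, hk, hP, hab⟩ := key P κ χ m hm L hL hline
    refine ⟨k, a, b, ?_, hP, hab⟩
    rw [mul_div_assoc] at hk ⊢
    exact hhalf _ _ (Nat.cast_nonneg _) hk
  · rintro k ⟨a, b, hP, hab⟩ S hS hmono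
    exact Pool.Agent.Y28.CrossC.upper hP (fun i j hij => (hab i j hij).1) hS hmono

end Pool.Agent.Results.MP_657f9d_co.AllPointSets
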